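import Pool.Agent.Helper79.AL.Once3

/-!
# MP_2b6189_al: integral fusion categories whose dimension is divisible by some prime exactly once

`CentreData` (`Pool.Agent.Helper94.YG.CentreData`, extending `Pool.Agent.Helper94.YF.CentreRep`) is the data of the Drinfeld
centre of an integral fusion category of dimension `n`.
-/

set_option autoImplicit false

namespace Pool.Agent.Results.MP_2b6189_al.ExactPrime

open Pool.Agent.Helper94.YF Pool.Agent.Helper94.YG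

/-- Let `n = p m`, `p` a prime which does not divide `m` (`n` even or odd).  Then either there is a nontrivial Tannakian
subcategory (a set `D` of simple objects closed under duality and fusion, containing the unit and another object, on which all
twists are `1` and the double braiding is trivial, `n s_xy = d_x d_y`), or `n ≥ 22680`, `p ^ 2` does not divide the level `L`,
and there are a divisor `N ≥ 3` of `p - 1`, a divisor `A ≥ (p + 1) ^ 2 / 2` of `m`, congruent to `N` or `-N` modulo `p`, and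
integers `y`, `w_i` and divisors `e`, `d_i` of `m` with the properties listed in the statement, and for all
primes `v`, `u`: if `m` divides `v ^ c * u ^ d * R` then `p ≤ 2 * R`, and if `A` divides `v ^ c * u ^ d * R` then
`p ^ 2 ≤ 4 * N * R ^ 2`; for odd `n`, moreover `N` is odd, `N ≥ 5` and `A > (p + 1) ^ 2`.
(So the first case holds if `n < 22680`, if `p ≤ 3`, if `2 * m < (p + 1) ^ 2`, and if `m = v ^ c * u ^ d * R` with
`2 * R < p`.) -/
theorem result (I : Type) [Fintype I] [DecidableEq I] (Z : CentreData I) (p m : ℕ)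
    (hp : p.Prime) (hn : Z.n = p * m) (hpm : ¬ p ∣ m) :
    (∃ D : I → Prop, D Z.o ∧ (∃ x, D x ∧ x ≠ Z.o) ∧ (∀ x, D x → D (Z.st x)) ∧
      (∀ x y z, D x → D y → Z.N x y z ≠ 0 → D z) ∧ (∀ x, D x → Z.th x = 1) ∧
      ∀ x y, D x → D y → (Z.n : ℂ) * Z.rho Sm x y = (Z.d x : ℂ) * Z.d y) ∨
    (22680 ≤ Z.n ∧ ¬ p ^ 2 ∣ Z.L ∧
      ∃ N A : ℕ, 3 ≤ N ∧ N ∣ p - 1 ∧ A ∣ m ∧ (p + 1) ^ 2 ≤ 2 * A ∧
      ((p : ℤ) ∣ A - N ∨ (p : ℤ) ∣ A + N) ∧
      (Odd Z.n → Odd N ∧ 5 ≤ N ∧ (p + 1) ^ 2 < A) ∧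
      (∃ (g : ℕ) (y : ℤ) (e k : ℕ) (w : Fin k → ℤ) (d : Fin k → ℕ), p = 1 + N * g ∧
        y ^ 2 + g * ∑ i, w i ^ 2 = p - g ∧ y * e + ∑ i, w i * (d i : ℤ) = 1 ∧
        1 < e ∧ e ∣ m ∧ (e : ℤ) ∣ A * y ∧ (p : ℤ) ∣ e - N * y ∧
        (∀ i, w i ≠ 0 ∧ 1 < d i ∧ d i ∣ m ∧ (d i : ℤ) ∣ A * w i ∧ (p : ℤ) ∣ d i + w i ∧
          p < 2 * Nat.gcd (d i) e) ∧
        ∀ i j, i ≠ j → p < 2 * Nat.gcd (d i) (d j)) ∧
      ∀ v u c d R : ℕ, v.Prime → u.Prime → 0 < R →
        (m ∣ v ^ c * u ^ d * R → p ≤ 2 * R) ∧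
        (A ∣ v ^ c * u ^ d * R → p ^ 2 ≤ 4 * N * R ^ 2)) := by
  by_cases hT : ∃ D, Pool.Agent.Helper89.OC.TanSet Z D
  · obtain ⟨D, hD⟩ := hT
    exact Or.inl ⟨D, hD.unit, hD.nontriv, hD.dual, hD.fus, hD.twist, hD.symm⟩
  · exact Or.inr ⟨Pool.Agent.Helper79.AL.bound I Z p m hp hn hpm hT,
      Pool.Agent.Helper79.AL.onceT I Z p m hp hn hpm hT⟩

end Pool.Agent.Results.MP_2b6189_al.ExactPrime
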