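import Pool.Agent.Helper89.RQ.Asm

/-!
# MP_2b6189_al: the interpolated fusion rings `R_q` (`q` not a prime power) have no categorification
-/

set_option autoImplicit false

namespace Pool.Agent.Results.MP_2b6189_al.InterpolatedRings

open Pool.Agent.Helper89.RQ

/-- Let `q ≥ 2` be an integer that is not a prime power, and let `A` be the interpolated fusion ring `R_q` of Liu, Palcoux and Ren,
the commutative integral fusion ring with the generic character table of `PSL(2,q)`. There are no Drinfeld centre data over `A`:
no S-matrix, twists, forgetful map and Frobenius-Schur indicators with the properties that the centre of a categorification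
has. -/
theorem result (q : ℕ) (hq : 2 ≤ q) (hpp : ¬ IsPrimePow q) (ι R : Type) [Fintype ι] [CommRing R]
    (A : FusRing ι R) (hA : IsRq q A) (κ : Type) [Fintype κ] [DecidableEq κ] : IsEmpty (Center A κ) :=
  hMain q ι R A hq hpp hA κ

end Pool.Agent.Results.MP_2b6189_al.InterpolatedRings
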