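import Pool.Agent.Helper79.AL.All
import Pool.Agent.Helper94.AL.Even

/-!
# MP_2b6189_al: integral fusion categories of square-free dimension, and of dimension `R m`

`CentreData` (`Pool.Agent.Helper94.YG.CentreData`, extending `Pool.Agent.Helper94.YF.CentreRep`) is the data of the Drinfeld
centre of an integral fusion category of dimension `n`.
-/

set_option autoImplicit false

namespace Pool.Agent.Results.MP_2b6189_al.Squarefree

open Pool.Agent.Helper94.YF Pool.Agent.Helper94.YG

/-- Suppose that `n = R m`, `R` odd and prime to `m`, `m > 1` square-free, all odd prime divisors of `m` larger than `2 R` (for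
`R = 1` this is every square-free `n > 1`).  Then there is a nontrivial Tannakian subcategory: a set `D` of simple objects closed
under duality and fusion, containing the unit and another object, on which all twists are `1` and the double braiding is trivial
(`n s_xy = d_x d_y`). -/
theorem result (I : Type) [Fintype I] [DecidableEq I] (Z : CentreData I) (R m : ℕ)
    (hn : Z.n = R * m) (hR : Odd R) (hcop : Nat.Coprime R m) (hsf : Squarefree m) (hm1 : 1 < m)
    (hbig : ∀ p : ℕ, p.Prime → p ∣ m → p ≠ 2 → 2 * R < p) :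
    ∃ D : I → Prop, D Z.o ∧ (∃ x, D x ∧ x ≠ Z.o) ∧ (∀ x, D x → D (Z.st x)) ∧
      (∀ x y z, D x → D y → Z.N x y z ≠ 0 → D z) ∧ (∀ x, D x → Z.th x = 1) ∧
      ∀ x y, D x → D y → (Z.n : ℂ) * Z.rho Sm x y = (Z.d x : ℂ) * Z.d y := by
  obtain ⟨D, hD⟩ : ∃ D, Pool.Agent.Helper89.OC.TanSet Z D := by
    by_cases h2 : 2 ∣ m
    · obtain ⟨k, hk⟩ := h2
      refine Pool.Agent.Helper94.AL.even_tan I Z (R * k) (by rw [hn, hk]; ring) ?_
      rw [Nat.odd_mul]
      refine ⟨hR, ?_⟩
      rw [← Nat.not_even_iff_odd]
      rintro ⟨j, hj⟩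
      have h4 : 2 * 2 ∣ m := ⟨j, by rw [hk, hj]; ring⟩
      have := Nat.isUnit_iff.1 (hsf 2 h4)
      omega
    · have hmo : Odd m := by
        rw [← Nat.not_even_iff_odd]
        exact fun h => h2 (even_iff_two_dvd.1 h)
      refine Pool.Agent.Helper79.AL.oddRm I Z (by rw [hn]; exact hR.mul hmo) R m hn hcop hsf hm1
        fun p hp hpm => hbig p hp hpm ?_
      rintro rfl
      exact h2 hpm
  exact ⟨D, hD.unit, hD.nontriv, hD.dual, hD.fus, hD.twist, hD.symm⟩

end Pool.Agent.Results.MP_2b6189_al.Squarefree
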