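import Pool.Agent.Helper79.P2.EDFin

/-!
# MP_2b6189_al: integral fusion categories of small dimension, or with few prime divisors

`CentreData` (`Pool.Agent.Helper94.YG.CentreData`, extending `Pool.Agent.Helper94.YF.CentreRep`) is the data of the Drinfeld
centre of an integral fusion category of dimension `n`.
-/

set_option autoImplicit false

namespace Pool.Agent.Results.MP_2b6189_al.ThreePrimes

open Pool.Agent.Helper94.YF Pool.Agent.Helper94.YG

/-- Let `n > 1`.  There is a nontrivial Tannakian subcategory (a set `D` of simple objects closed under duality and fusion,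
containing the unit and another object, on which all twists are `1` and the double braiding is trivial, `n s_xy = d_x d_y`) in
each of the following cases: `n < 100000` is not divisible by one of the thirteen listed numbers (this excludes `32` numbers);
`n < 252700` is divisible neither by `8` nor by one of the six listed numbers (among the numbers which are not divisible by `8`
this excludes `8`, namely `44100`, `108900`, `132300`, `152100`, `152460`, `213444`, `220500`, `245700`);
`n < 408375` and `4` does not divide `n`; `n` has at most two prime divisors; `n = p ^ 2 m`, `p` a prime which does not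
divide `m`, all prime divisors of `m` are among two primes `q`, `r` (distinct from `p`), and `p ≤ 5` or `p < q ^ 2` and
`p < r ^ 2`. -/
theorem result (I : Type) [Fintype I] [DecidableEq I] (Z : CentreData I) (hn : 1 < Z.n)
    (h : (Z.n < 100000 ∧ ∀ e : ℕ, e ∈ [10584, 22680, 26136, 27000, 36504, 44100, 47432, 49000, 62424, 66248, 75600,
        77976, 87120] → ¬ e ∣ Z.n) ∨
      (Z.n < 252700 ∧ ¬ 8 ∣ Z.n ∧ ∀ e : ℕ, e ∈ [44100, 108900, 152100, 152460, 213444, 245700] → ¬ e ∣ Z.n) ∨
      (Z.n < 408375 ∧ ¬ 4 ∣ Z.n) ∨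
      (∃ p q : ℕ, ∀ l : ℕ, l.Prime → l ∣ Z.n → l = p ∨ l = q) ∨
      (∃ p q r m : ℕ, p.Prime ∧ q.Prime ∧ r.Prime ∧ q ≠ p ∧ r ≠ p ∧ Z.n = p ^ 2 * m ∧ ¬ p ∣ m ∧
        (∀ l : ℕ, l.Prime → l ∣ m → l = q ∨ l = r) ∧ (p ≤ 5 ∨ (p < q ^ 2 ∧ p < r ^ 2)))) :
    ∃ D : I → Prop, D Z.o ∧ (∃ x, D x ∧ x ≠ Z.o) ∧ (∀ x, D x → D (Z.st x)) ∧
      (∀ x y z, D x → D y → Z.N x y z ≠ 0 → D z) ∧ (∀ x, D x → Z.th x = 1) ∧
      ∀ x y, D x → D y → (Z.n : ℂ) * Z.rho Sm x y = (Z.d x : ℂ) * Z.d y := by
  obtain ⟨D, hD⟩ : ∃ D : I → Prop, Pool.Agent.Helper89.OC.TanSet Z D := by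
    rcases h with ⟨h, h'⟩ | ⟨h, h', h''⟩ | ⟨h, h'⟩ | ⟨p, q, h⟩ |
      ⟨p, q, r, m, hp, hq, hr, hqp, hrp, hm, hpm, hl, h⟩
    · exact Pool.Agent.Helper79.P2.ED.below8 Z hn h h'
    · exact Pool.Agent.Helper79.P2.ED.below4 Z hn h h' h''
    · exact Pool.Agent.Helper79.P2.ED.notFour Z hn h h'
    · exact Pool.Agent.Helper79.P2.twoPrimes Z hn p q h
    · exact Pool.Agent.Helper79.P2.ED.pSq Z p q r m hp hq hr hqp hrp hm hpm hl h
  exact ⟨D, hD.unit, hD.nontriv, hD.dual, hD.fus, hD.twist, hD.symm⟩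

end Pool.Agent.Results.MP_2b6189_al.ThreePrimes
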